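import Pool.Agent.Helper98.HQ.Spec

/-!
# HQ, part SRT (MP_1ece5f_pr): properties of the nondecreasing rearrangement
-/

set_option autoImplicit false

open Pool.Agent.Helper98.HQ

namespace Pool.Agent.Helper41.HQ.SRT

theorem srt_mono {k : ℕ} (x : Fin k → ℝ) : Monotone (srt x) := Tuple.monotone_sort x

theorem srt_sum {k : ℕ} (x : Fin k → ℝ) (f : ℝ → ℝ) : ∑ i, f (srt x i) = ∑ i, f (x i) :=
  Equiv.sum_comp (Tuple.sort x) (fun i => f (x i))

theorem srt_le {k : ℕ} (x y : Fin k → ℝ) (h : ∀ i, x i ≤ y i) (i : Fin k) :
    srt x i ≤ srt y i := by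
  by_contra hlt
  push Not at hlt
  have hmap : ∀ j ∈ Finset.Iic i,
      (Tuple.sort x).symm (Tuple.sort y j) ∈ Finset.Iio i := by
    intro j hj
    rw [Finset.mem_Iic] at hj
    rw [Finset.mem_Iio]
    by_contra hge
    push Not at hge
    have h1 : srt x i ≤ srt x ((Tuple.sort x).symm (Tuple.sort y j)) := srt_mono x hge
    have h2 : srt x ((Tuple.sort x).symm (Tuple.sort y j)) = x (Tuple.sort y j) := by
      simp [srt]
    have h3 : srt y j ≤ srt y i := srt_mono y hj
    have h4 : srt y j = y (Tuple.sort y j) := rfl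
    have h5 := h (Tuple.sort y j)
    linarith
  have hcard := Finset.card_le_card_of_injOn
    (fun j => (Tuple.sort x).symm (Tuple.sort y j)) hmap
    (fun a _ b _ hab => (Tuple.sort y).injective ((Tuple.sort x).symm.injective hab))
  rw [Fin.card_Iic, Fin.card_Iio] at hcard
  omega

theorem main : S_SRT := by
  intro k x y
  refine ⟨srt_mono x, srt_sum x, srt_le x y, ?_, ?_, ?_⟩
  · intro hx
    have := (Tuple.comp_sort_eq_comp_iff_monotone (f := x) (σ := Equiv.refl _)).2 (by simpa using hx)
    simpa [srt] using this.symm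
  · intro σ
    exact Tuple.comp_perm_comp_sort_eq_comp_sort
  · set z : Fin k → ℝ := fun i => max (x i) (y i) with hz
    have hxz : ∀ i, srt x i ≤ srt z i := srt_le x z fun i => le_max_left _ _
    have hyz : ∀ i, srt y i ≤ srt z i := srt_le y z fun i => le_max_right _ _
    calc ∑ i, |srt x i - srt y i| ≤ ∑ i, (2 * srt z i - srt x i - srt y i) := by
          apply Finset.sum_le_sum
          intro i _
          rw [abs_le]
          constructor <;> linarith [hxz i, hyz i]
      _ = 2 * ∑ i, srt z i - ∑ i, srt x i - ∑ i, srt y i := by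
          rw [Finset.sum_sub_distrib, Finset.sum_sub_distrib, Finset.mul_sum]
      _ = 2 * ∑ i, z i - ∑ i, x i - ∑ i, y i := by
          rw [srt_sum z (fun t => t), srt_sum x (fun t => t), srt_sum y (fun t => t)]
      _ = ∑ i, (2 * z i - x i - y i) := by
          rw [Finset.sum_sub_distrib, Finset.sum_sub_distrib, Finset.mul_sum]
      _ = ∑ i, |x i - y i| := by
          apply Finset.sum_congr rfl
          intro i _
          simp only [hz]
          rcases le_total (x i) (y i) with h | h
          · rw [max_eq_right h, abs_of_nonpos (by linarith)]; ring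
          · rw [max_eq_left h, abs_of_nonneg (by linarith)]; ring

end Pool.Agent.Helper41.HQ.SRT
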